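import Pool.Agent.TH732.CC.Grp

/-!
# MP_672973_lc, Q1: a countably compact group with non-countably-compact square, in ZFC

Outline of the proof (everything is in `Pool/Agent/TH732/CC`).  Let `XX` be the compact group
`(ZMod 2) ^ ((ZMod 2) ^ ω)`.  A subgroup of `XX` is built by recursion on `ξ < c`: it is generated by
the coordinate maps `s ↦ s n` (`n < ω`) and by limits, along ultrafilters `p_ξ`, of the formally
linearly independent sequences of formal finite sums of earlier generators.  The ultrafilters come
from an almost disjoint family on the set of factorial intervals `[m!, (m+1)!)`.  They have the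
property that for countably many distinct labels and any linearly independent sequences attached to
them one linear functional can be prescribed along all of the ultrafilters simultaneously
(`exists_common_functional`).  Hence two different choices of a label at stage `ξ` give different
limits (`key`), there are `c` many possible limits, and one can avoid fewer than `c` forbidden
values; the forbidden values are those which could help to create a cluster point of the sequence
`(e_{2n}, e_{2n+1})` in the square.
-/

namespace Pool.Agent.Results.MP_672973_lc.SquareNotCC

open Set Filter Topology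

/-- Countable compactness: every countable open cover has a finite subcover. -/
def CC (X : Type) [TopologicalSpace X] : Prop :=
  ∀ U : ℕ → Set X, (∀ n, IsOpen (U n)) → (⋃ n, U n) = Set.univ →
    ∃ F : Finset ℕ, (⋃ n ∈ F, U n) = Set.univ

theorem cc_iff (X : Type) [TopologicalSpace X] :
    CC X ↔ ∀ g : ℕ → X, ∃ a, MapClusterPt a atTop g := by
  constructor
  · intro h g
    have h1 : IsCountablyCompact (Set.univ : Set X) := by
      rw [isCountablyCompact_iff_countable_open_cover]
      intro U hU hc
      obtain ⟨F, hF⟩ := h U hU (Set.univ_subset_iff.1 hc)
      exact ⟨F, hF.ge⟩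
    obtain ⟨a, _, ha⟩ := isCountablyCompact_iff_seq_clusterPt.1 h1 g
      (Eventually.of_forall fun n => Set.mem_univ _)
    exact ⟨a, ha⟩
  · intro h U hU hc
    have h1 : IsCountablyCompact (Set.univ : Set X) := by
      rw [isCountablyCompact_iff_seq_clusterPt]
      intro g _
      obtain ⟨a, ha⟩ := h g
      exact ⟨a, Set.mem_univ _, ha⟩
    obtain ⟨F, hF⟩ := isCountablyCompact_iff_countable_open_cover.1 h1 U hU hc.ge
    exact ⟨F, Set.univ_subset_iff.1 hF⟩

/-- There is a countably compact Tikhonov topological group (even a Boolean one, without nontrivial
convergent sequences) whose square is not countably compact. -/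
theorem result : ∃ (G : Type) (_ : CommGroup G) (_ : TopologicalSpace G),
    IsTopologicalGroup G ∧ T35Space G ∧ CC G ∧ ¬ CC (G × G) ∧
    (∀ g : G, g * g = 1) ∧
    (∀ (g : ℕ → G) (a : G), Tendsto g atTop (𝓝 a) → ∀ᶠ n in atTop, g n = a) := by
  obtain ⟨G, h1, h2, h, h3⟩ := Pool.Agent.TH732.CC.exists_subgroup
  refine ⟨Multiplicative G, inferInstance, inferInstance, ?_, ?_, ?_, ?_, ?_, ?_⟩
  · infer_instance
  · exact inferInstanceAs (T35Space G)
  · exact (cc_iff (Multiplicative G)).2 h1
  · intro hcc
    obtain ⟨a, ha⟩ := (cc_iff (Multiplicative G × Multiplicative G)).1 hcc h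
    exact h3 a ha
  · intro g
    have h4 : ∀ x : G, x + x = 0 := by
      intro x
      apply Subtype.ext
      funext s
      have : ∀ c : ZMod 2, c + c = 0 := by decide
      exact this _
    exact h4 (Multiplicative.toAdd g)
  · exact h2

end Pool.Agent.Results.MP_672973_lc.SquareNotCC
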